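import Mathlib

/-!
# The OSSS inequality fails for fractional query algorithms

For the AND of two bits we construct a fractional query algorithm (in discrete time, on a probability
space with 12 points) that computes it with zero error and for which
`∑ i, δ i * Inf i = 17 / 24 < 3 / 4 = Var`.
The algorithm first moves bit 1 to `-1` or to `1/2`; if it is at `-1` it stops; otherwise it reads
bit 2 and stops if it is `-1`; otherwise it reads the rest of bit 1.
-/

set_option autoImplicit false

namespace Pool.Agent.Results.MP_ebdc6e_an.AndCounterexample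

open MeasureTheory Filter Topology Finset

/-- A vertex of the cube `[-1,1]^n`, given by signs, as a point of `ℝ^n`. -/
def toPoint {n : ℕ} (x : Fin n → ℤˣ) : Fin n → ℝ := fun i => ((x i : ℤ) : ℝ)

/-- A fractional query algorithm for uniform inputs, in discrete time, on a probability space. -/
structure FractionalQueryAlgorithm (n : ℕ) (Ω : Type) [MeasurableSpace Ω] (P : Measure Ω) where
  /-- the process `X(t)` -/
  X : ℕ → Ω → Fin n → ℝ
  /-- every `X(t)` is a random variable -/
  meas : ∀ t, StronglyMeasurable (X t)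
  /-- the terminal value `X(∞)`, a vertex of the cube -/
  terminal : Ω → Fin n → ℤˣ
  /-- the stopping time -/
  τ : Ω → ℕ
  /-- the output map -/
  A : (Fin n → ℝ) → ℝ
  mem_cube : ∀ t ω i, X t ω i ∈ Set.Icc (-1 : ℝ) 1
  start : ∀ ω i, X 0 ω i = 0
  tendsto_terminal : ∀ᵐ ω ∂P, Tendsto (fun t => X t ω) atTop (𝓝 (toPoint (terminal ω)))
  /-- the terminal value is uniformly distributed on the vertices -/
  law_terminal : ∀ x : Fin n → ℤˣ, P {ω | terminal ω = x} = ((2 : ENNReal) ^ n)⁻¹
  /-- `τ` is a stopping time for the filtration generated by `X` -/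
  stopping : IsStoppingTime (Filtration.natural X meas) (fun ω => (τ ω : WithTop ℕ))
  /-- all products of coordinates are martingales for the filtration generated by `X`; the
  singletons say that `X` itself is a martingale -/
  martingale : ∀ S : Finset (Fin n),
    Martingale (fun t ω => ∏ i ∈ S, X t ω i) (Filtration.natural X meas) P

variable {n : ℕ} {Ω : Type} [MeasurableSpace Ω] {P : Measure Ω}

/-- The algorithm computes the Boolean function `f` with zero error. -/
def FractionalQueryAlgorithm.Computes (Q : FractionalQueryAlgorithm n Ω P)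
    (f : (Fin n → ℤˣ) → ℤˣ) : Prop :=
  ∀ᵐ ω ∂P, Q.A (Q.X (Q.τ ω) ω) = ((f (Q.terminal ω) : ℤ) : ℝ)

/-- The revealment `δ i = E[X_i(τ)^2]`. -/
noncomputable def FractionalQueryAlgorithm.revealment (Q : FractionalQueryAlgorithm n Ω P)
    (i : Fin n) : ℝ :=
  ∫ ω, (Q.X (Q.τ ω) ω i) ^ 2 ∂P

/-- The mean of a real function on `{-1,1}^n`. -/
noncomputable def mean (g : (Fin n → ℤˣ) → ℝ) : ℝ := (∑ x, g x) / 2 ^ n

/-- The variance of `f` under the uniform measure. -/
noncomputable def variance (f : (Fin n → ℤˣ) → ℤˣ) : ℝ :=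
  mean fun x => (((f x : ℤ) : ℝ) - mean fun y => ((f y : ℤ) : ℝ)) ^ 2

/-- The influence: the probability that flipping coordinate `i` changes the value of `f`. -/
noncomputable def influence (f : (Fin n → ℤˣ) → ℤˣ) (i : Fin n) : ℝ :=
  mean fun x => if f x ≠ f (Function.update x i (-x i)) then 1 else 0

/-! ### The example -/

/-- The sample space. -/
abbrev W : Type := Bool × Fin 6

/-- First coordinate of the process. -/
noncomputable def X1 (t : ℕ) (j : Fin 6) : ℝ :=
  if t = 0 then 0 else if j < 2 then -1 else if t ≤ 2 then 1 / 2 else if j = 5 then -1 else 1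

/-- Second coordinate of the process. -/
noncomputable def X2 (t : ℕ) (b : Bool) : ℝ := if t ≤ 1 then 0 else if b then 1 else -1

/-- The process. -/
noncomputable def X (t : ℕ) (ω : W) : Fin 2 → ℝ := ![X1 t ω.2, X2 t ω.1]

/-- The uniform measure on the sample space. -/
noncomputable def PW : Measure W := (PMF.uniformOfFintype W).toMeasure

instance : IsProbabilityMeasure PW := by unfold PW; infer_instance

theorem integral_PW (f : W → ℝ) : ∫ ω, f ω ∂PW = (∑ ω, f ω) / 12 := by
  unfold PW
  rw [PMF.integral_eq_sum]
  simp [Finset.sum_div]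
  refine Finset.sum_congr rfl fun ω _ => ?_
  ring

theorem measX (t : ℕ) : StronglyMeasurable (X t) := by
  apply Measurable.stronglyMeasurable
  exact measurable_of_countable _

/-- The terminal value. -/
def term (ω : W) : Fin 2 → ℤˣ := ![if ω.2 < 2 ∨ ω.2 = 5 then -1 else 1, if ω.1 then 1 else -1]

/-- The stopping time. -/
def tau (ω : W) : ℕ := if ω.2 < 2 then 1 else if ω.1 then 3 else 2

/-- The information at time `t`. -/
def H (t : ℕ) (ω : W) : Bool × Bool × Bool :=
  (decide (1 ≤ t ∧ ω.2 < 2), decide (2 ≤ t ∧ ω.1 = true), decide (3 ≤ t ∧ ω.2 = 5))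


theorem X_factors {i j : ℕ} (hij : j ≤ i) {ω ω' : W} (h : H i ω = H i ω') : X j ω = X j ω' := by
  obtain ⟨b, k⟩ := ω
  obtain ⟨b', k'⟩ := ω'
  simp only [H, Prod.mk.injEq, decide_eq_decide] at h
  obtain ⟨h1, h2, h3⟩ := h
  unfold X
  congr 1
  · unfold X1
    by_cases h0 : j = 0
    · simp [h0]
    · have hi : 1 ≤ i := by omega
      simp only [hi, true_and] at h1
      by_cases hj : j ≤ 2
      · simp [h0, hj, h1]
      · have hi3 : 3 ≤ i := by omega
        simp only [hi3, true_and] at h3
        simp [h0, hj, h1, h3]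
  · congr 1
    unfold X2
    by_cases hj : j ≤ 1
    · simp [hj]
    · have hi : 2 ≤ i := by omega
      simp only [hi, true_and] at h2
      cases b <;> cases b' <;> simp_all

theorem natural_le (i : ℕ) :
    (Filtration.natural X measX) i ≤ MeasurableSpace.comap (H i) ⊤ := by
  change (⨆ j ≤ i, MeasurableSpace.comap (X j) _) ≤ _
  refine iSup₂_le fun j hj => ?_
  rintro s ⟨t, -, rfl⟩
  refine ⟨{h | ∃ ω, H i ω = h ∧ X j ω ∈ t}, trivial, ?_⟩
  ext ω
  simp only [Set.mem_preimage, Set.mem_ofPred_eq]
  constructor
  · rintro ⟨ω', h1, h2⟩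
    rwa [X_factors hj h1] at h2
  · intro h
    exact ⟨ω, rfl, h⟩

theorem saturated {i : ℕ} {s : Set W} (hs : MeasurableSet[(Filtration.natural X measX) i] s)
    {ω ω' : W} (h : H i ω = H i ω') : ω ∈ s ↔ ω' ∈ s := by
  obtain ⟨t, -, rfl⟩ := natural_le i s hs
  simp only [Set.mem_preimage, h]

/-- The martingale property in summed form. -/
theorem sum_eq (S : Finset (Fin 2)) (i : ℕ) (e : W → ℝ)
    (he : ∀ ω ω', H i ω = H i ω' → e ω = e ω') :
    ∑ ω, e ω * ∏ k ∈ S, X i ω k = ∑ ω, e ω * ∏ k ∈ S, X (i + 1) ω k := by
  have hS : S = ∅ ∨ S = {0} ∨ S = {1} ∨ S = {0, 1} := by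
    revert S; decide
  rcases i with _ | _ | _ | i
  · have h (b : Bool) (j : Fin 6) : e (b, j) = e (true, 0) := he _ _ (by simp [H])
    rcases hS with rfl | rfl | rfl | rfl <;>
    · simp only [Fintype.sum_prod_type, h]
      simp [Fin.sum_univ_succ, X, X1, X2]
      try ring
  · have h0 (b : Bool) : e (b, 0) = e (true, 0) := he _ _ (by simp [H])
    have h1 (b : Bool) : e (b, 1) = e (true, 0) := he _ _ (by simp [H])
    have h2 (b : Bool) : e (b, 2) = e (true, 2) := he _ _ (by simp [H])
    have h3 (b : Bool) : e (b, 3) = e (true, 2) := he _ _ (by simp [H])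
    have h4 (b : Bool) : e (b, 4) = e (true, 2) := he _ _ (by simp [H])
    have h5 (b : Bool) : e (b, 5) = e (true, 2) := he _ _ (by simp [H])
    rcases hS with rfl | rfl | rfl | rfl <;>
    · simp only [Fintype.sum_prod_type, Fintype.sum_bool, Fin.sum_univ_six, h0, h1, h2, h3, h4, h5]
      simp [X, X1, X2]
      try ring
  · have h1 (b : Bool) : e (b, 1) = e (b, 0) := he _ _ (by simp [H])
    have h3 (b : Bool) : e (b, 3) = e (b, 2) := he _ _ (by simp [H])
    have h4 (b : Bool) : e (b, 4) = e (b, 2) := he _ _ (by simp [H])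
    have h5 (b : Bool) : e (b, 5) = e (b, 2) := he _ _ (by simp [H])
    rcases hS with rfl | rfl | rfl | rfl <;>
    · simp only [Fintype.sum_prod_type, Fintype.sum_bool, Fin.sum_univ_six, h1, h3, h4, h5]
      simp [X, X1, X2]
      try ring
  · refine Finset.sum_congr rfl fun ω _ => ?_
    have : X (i + 1 + 1 + 1) ω = X (i + 1 + 1 + 1 + 1) ω := by
      simp [X, X1, X2]
    rw [this]

theorem mart (S : Finset (Fin 2)) :
    Martingale (fun t ω => ∏ i ∈ S, X t ω i) (Filtration.natural X measX) PW := by
  have hadX : ∀ t, StronglyMeasurable[(Filtration.natural X measX) t] (X t) :=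
    Filtration.stronglyAdapted_natural measX
  have hint : ∀ t, Integrable (fun ω : W => ∏ i ∈ S, X t ω i) PW := fun t => Integrable.of_finite
  have had : ∀ t, StronglyMeasurable[(Filtration.natural X measX) t]
      (fun ω : W => ∏ i ∈ S, X t ω i) := by
    intro t
    have : (fun ω : W => ∏ i ∈ S, X t ω i) = (fun x : Fin 2 → ℝ => ∏ i ∈ S, x i) ∘ X t := rfl
    rw [this]
    have hc : Continuous (fun x : Fin 2 → ℝ => ∏ i ∈ S, x i) := by fun_prop
    exact hc.comp_stronglyMeasurable (hadX t)
  refine martingale_nat had hint fun t => ?_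
  refine ae_eq_condExp_of_forall_setIntegral_eq ((Filtration.natural X measX).le t) (hint _)
    (fun s _ _ => Integrable.of_finite) ?_ (had t).aestronglyMeasurable
  intro s hs _
  have hs' : MeasurableSet s := (Filtration.natural X measX).le t s hs
  rw [← integral_indicator hs', ← integral_indicator hs', integral_PW, integral_PW]
  congr 1
  classical
  have h1 : ∀ (u : ℕ) (ω : W), s.indicator (fun ω : W => ∏ i ∈ S, X u ω i) ω
      = (if ω ∈ s then (1 : ℝ) else 0) * ∏ i ∈ S, X u ω i := by
    intro u ω
    by_cases h : ω ∈ s <;> simp [h]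
  simp_rw [h1]
  apply sum_eq
  intro ω ω' h
  simp only [saturated hs h]

theorem stop : IsStoppingTime (Filtration.natural X measX) (fun ω => (tau ω : WithTop ℕ)) := by
  intro i
  have hX : ∀ {j} (_ : j ≤ i), Measurable[(Filtration.natural X measX) i] (X j) := by
    intro j hj
    exact ((Filtration.stronglyAdapted_natural measX j).mono
      ((Filtration.natural X measX).mono hj)).measurable
  change MeasurableSet[(Filtration.natural X measX) i]
    {ω : W | ((tau ω : ℕ) : WithTop ℕ) ≤ ((i : ℕ) : WithTop ℕ)}
  rcases i with _ | _ | _ | i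
  · have : {ω : W | (tau ω : WithTop ℕ) ≤ ((0 : ℕ) : WithTop ℕ)} = ∅ := by
      ext ω
      simp only [Set.mem_ofPred_eq, Set.mem_empty_iff_false, iff_false, Nat.cast_le]
      unfold tau
      split_ifs <;> simp
    rw [this]
    exact @MeasurableSet.empty _ ((Filtration.natural X measX) 0)
  · have : {ω : W | (tau ω : WithTop ℕ) ≤ ((0 + 1 : ℕ) : WithTop ℕ)}
        = X 1 ⁻¹' {x | x 0 = -1} := by
      ext ω
      simp only [Set.mem_ofPred_eq, Nat.cast_le, Set.mem_preimage]
      unfold tau
      by_cases h : ω.2 < 2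
      · simp [h, X, X1]
      · cases hb : ω.1
        · simp [h, X, X1]
          norm_num
        · simp [h, X, X1]
          norm_num
    rw [this]
    exact hX le_rfl (measurableSet_eq_fun (measurable_pi_apply 0) measurable_const)
  · have : {ω : W | (tau ω : WithTop ℕ) ≤ ((0 + 1 + 1 : ℕ) : WithTop ℕ)}
        = X 2 ⁻¹' ({x | x 0 = -1} ∪ {x | x 1 = -1}) := by
      ext ω
      simp only [Set.mem_ofPred_eq, Nat.cast_le, Set.mem_preimage, Set.mem_union]
      unfold tau
      by_cases h : ω.2 < 2
      · simp [h, X, X1]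
      · by_cases hb : ω.1 = true
        · simp only [h, X, X1, X2, hb]
          norm_num
        · simp [h, X, X1, X2, hb]
    rw [this]
    exact hX le_rfl ((measurableSet_eq_fun (measurable_pi_apply 0) measurable_const).union
      (measurableSet_eq_fun (measurable_pi_apply 1) measurable_const))
  · have : {ω : W | (tau ω : WithTop ℕ) ≤ ((i + 1 + 1 + 1 : ℕ) : WithTop ℕ)} = Set.univ := by
      ext ω
      simp only [Set.mem_ofPred_eq, Set.mem_univ, iff_true, Nat.cast_le]
      unfold tau
      split_ifs <;> omega
    rw [this]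
    exact @MeasurableSet.univ _ ((Filtration.natural X measX) (i + 1 + 1 + 1))

theorem law (x : Fin 2 → ℤˣ) : PW {ω | term ω = x} = ((2 : ENNReal) ^ 2)⁻¹ := by
  have h1 : PW {ω | term ω = x} = ENNReal.ofReal (1 / 4) := by
    have h2 : (PW {ω | term ω = x}).toReal = 1 / 4 := by
      have h3 : (PW {ω | term ω = x}).toReal
          = ∫ ω, (({ω | term ω = x} : Set W).indicator (fun _ => (1 : ℝ))) ω ∂PW := by
        rw [integral_indicator_const _ (Set.toFinite _).measurableSet]
        simp [Measure.real]
      rw [h3, integral_PW]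
      have h4 : ∀ ω : W, (({ω | term ω = x} : Set W).indicator (fun _ => (1 : ℝ))) ω
          = if term ω = x then 1 else 0 := by
        intro ω
        by_cases h : term ω = x <;> simp [h]
      simp_rw [h4]
      rw [Finset.sum_boole]
      have h5 : ∀ x : Fin 2 → ℤˣ, (Finset.univ.filter fun ω : W => term ω = x).card = 3 := by
        decide
      rw [h5]
      norm_num
    rw [← h2, ENNReal.ofReal_toReal (measure_ne_top _ _)]
  rw [h1, one_div, ENNReal.ofReal_inv_of_pos (by norm_num)]
  congr 1
  rw [show (4 : ℝ) = ((4 : ℕ) : ℝ) by norm_num, ENNReal.ofReal_natCast]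
  norm_num

/-- The AND of two bits (`1` is true, `-1` is false). -/
def and2 (x : Fin 2 → ℤˣ) : ℤˣ := if x 0 = 1 ∧ x 1 = 1 then 1 else -1

/-- The algorithm. -/
noncomputable def Q : FractionalQueryAlgorithm 2 W PW where
  X := X
  meas := measX
  terminal := term
  τ := tau
  A := open Classical in fun x => if x 0 = 1 ∧ x 1 = 1 then 1 else -1
  mem_cube := by
    intro t ω i
    fin_cases i
    · simp only [X, X1]
      split_ifs <;> norm_num
    · simp only [X, X2]
      split_ifs <;> norm_num
  start := by
    intro ω i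
    fin_cases i <;> simp [X, X1, X2]
  tendsto_terminal := by
    refine Eventually.of_forall fun ω => ?_
    apply tendsto_const_nhds.congr'
    filter_upwards [eventually_ge_atTop 3] with t ht
    have h0 : t ≠ 0 := by omega
    have h1 : ¬ t ≤ 1 := by omega
    have h2 : ¬ t ≤ 2 := by omega
    funext i
    fin_cases i
    · by_cases h : ω.2 < 2
      · simp [X, X1, toPoint, term, h0, h]
      · by_cases h5 : ω.2 = 5
        · simp [X, X1, toPoint, term, h0, h2, h5]
        · simp [X, X1, toPoint, term, h0, h2, h5, h]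
    · cases h : ω.1 <;> simp [X, X2, toPoint, term, h1, h]
  law_terminal := law
  stopping := stop
  martingale := mart

theorem Q_computes : Q.Computes and2 := by
  refine Eventually.of_forall fun ω => ?_
  obtain ⟨b, j⟩ := ω
  by_cases h : j < 2
  · simp [Q, tau, and2, term, X, X1, X2, h]
  · cases b
    · simp [Q, tau, and2, term, X, X1, X2, h]
    · by_cases h5 : j = 5
      · simp [Q, tau, and2, term, X, X1, X2, h5]
        norm_num
      · simp [Q, tau, and2, term, X, X1, X2, h, h5]

theorem variance_and2 : variance and2 = 3 / 4 := by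
  have key : ∀ g : (Fin 2 → ℤˣ) → ℝ, ∑ x, g x = g ![1, 1] + g ![1, -1] + g ![-1, 1] + g ![-1, -1] := by
    intro g
    have : (Finset.univ : Finset (Fin 2 → ℤˣ)) = {![1, 1], ![1, -1], ![-1, 1], ![-1, -1]} := by
      decide
    rw [this, Finset.sum_insert (by decide), Finset.sum_insert (by decide),
      Finset.sum_insert (by decide), Finset.sum_singleton]
    ring
  unfold variance mean
  simp only [key]
  simp [and2]
  norm_num

theorem influence_and2 (i : Fin 2) : influence and2 i = 1 / 2 := by
  unfold influence mean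
  rw [Finset.sum_boole]
  have h : ∀ i : Fin 2, (Finset.univ.filter fun x : Fin 2 → ℤˣ =>
      and2 x ≠ and2 (Function.update x i (-x i))).card = 2 := by decide
  rw [h]
  norm_num

theorem revealment_Q : Q.revealment 0 = 3 / 4 ∧ Q.revealment 1 = 2 / 3 := by
  constructor
  · unfold FractionalQueryAlgorithm.revealment
    rw [integral_PW, Fintype.sum_prod_type, Fintype.sum_bool]
    simp only [Fin.sum_univ_six]
    simp [Q, tau, X, X1]
    norm_num
  · unfold FractionalQueryAlgorithm.revealment
    rw [integral_PW, Fintype.sum_prod_type, Fintype.sum_bool]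
    simp only [Fin.sum_univ_six]
    simp [Q, tau, X, X2]
    norm_num

/-- There is a fractional query algorithm computing the AND of two bits with zero error for which
`∑ i, δ i * Inf i = 17 / 24` is smaller than the variance `3 / 4`. -/
theorem result : ∃ (Ω : Type) (_ : MeasurableSpace Ω) (P : Measure Ω) (_ : IsProbabilityMeasure P)
    (Q : FractionalQueryAlgorithm 2 Ω P) (f : (Fin 2 → ℤˣ) → ℤˣ),
    Q.Computes f ∧ variance f = 3 / 4 ∧ ∑ i, Q.revealment i * influence f i = 17 / 24 ∧
      ∑ i, Q.revealment i * influence f i < variance f := by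
  have h : ∑ i, Q.revealment i * influence and2 i = 17 / 24 := by
    rw [Fin.sum_univ_two, influence_and2, influence_and2, revealment_Q.1, revealment_Q.2]
    norm_num
  refine ⟨W, inferInstance, PW, inferInstance, Q, and2, Q_computes, variance_and2, h, ?_⟩
  rw [h, variance_and2]
  norm_num

end Pool.Agent.Results.MP_ebdc6e_an.AndCounterexample
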